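import Pool.Agent.helper577_itp.Count

/-!
For the map `f(x) = x ^ 2 - 1` and `P n` = the set of primes dividing some term of the orbit
`n, f n, f (f n), …`, a positive proportion of the integers `n` have a set `P n` which is not shared
by any other integer `m` with `2 ≤ m ≤ n ^ (1 + δ)`.

Sketch. (1) For a prime `p ≡ 3, 5 mod 8` the number `2` is not a square mod `p`, so the backward orbit
of `0` mod `p` is `{0, 1, -1}` and `p ∈ P n` iff `p ∣ n (n - 1) (n + 1)`.
(2) If `p ∣ n - i`, `q ∣ n - i'` are two such primes, `i ≠ i'` in `{0, 1, -1}`, and `P m = P n`, then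
`p ∣ m - j`, `q ∣ m - j'` with `j, j' ∈ {0, 1, -1}`, and `p q` divides
`(n - i) (m - j') - (m - j) (n - i')`, whose absolute value is at most `2 (n + m + 1)`. When `p q` is larger,
the determinant vanishes and `m` is one of `n`, `n ± 1`, `2 n ± 1`, `(n ± 1) / 2`; these values are
excluded (except `m = n`) when each of `n - 1, n, n + 1` has a prime factor `≥ 5` which is `3` or `5` mod 8.
(3) By the prime number theorem in progressions the integers `n` for which `n - i` has a prime factor
`≡ 3, 5 mod 8` above `3 X ^ ((1 + δ) / 2)` have density `log (2 / (1 + δ)) / 2` for each `i`; three times this is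
more than `1` for small `δ`, so a positive proportion of `n` have two such `i`.
-/

set_option autoImplicit false

open Pool.Agent.Helper577Itp (P)

/-- For `0 ≤ δ < 1` the set of the integers `n ≥ 2` such that `P m ≠ P n` for every integer `m ≠ n` with
`2 ≤ m ≤ n ^ (1 + δ)` has lower density at least `(3 log (2 / (1 + δ)) - 2) / 4`; this is positive for
`δ = 1 / 50`. -/
theorem Pool.Agent.Results.MP_06afd2_nt.IsolatedPositiveDensity.result :
    (∀ δ : ℝ, 0 ≤ δ → δ < 1 → ∀ ε : ℝ, 0 < ε → ∃ X₀ : ℕ, ∀ X : ℕ, X₀ ≤ X →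
      ((3 * Real.log (2 / (1 + δ)) - 2) / 4 - ε) * X ≤
        (Set.ncard {n : ℕ | 2 ≤ n ∧ n ≤ X ∧
          ∀ m : ℕ, 2 ≤ m → m ≠ n → (m : ℝ) ≤ (n : ℝ) ^ (1 + δ) → P m ≠ P n} : ℝ)) ∧
    0 < (3 * Real.log (2 / (1 + 1 / 50)) - 2) / 4 := by
  constructor
  · intro δ hδ hδ1 ε hε
    obtain ⟨X₀, h⟩ := Pool.Agent.Helper577Itp.LR_lower δ hδ hδ1 ε hε
    refine ⟨X₀, fun X hX => ?_⟩
    refine (h X hX).trans (le_of_eq ?_)
    rw [← Set.ncard_coe_finset]
    congr 2
    ext n
    unfold Pool.Agent.Helper577Itp.LR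
    simp only [Finset.coe_filter, Finset.mem_Icc, Set.mem_ofPred_eq, and_assoc]
  · have h1 : Real.exp 2 < (2 / (1 + 1 / 50)) ^ 3 := by
      have h2 : Real.exp 2 = Real.exp 1 * Real.exp 1 := by
        rw [← Real.exp_add]; norm_num
      have h3 := Real.exp_one_lt_d9
      have h4 := Real.exp_pos 1
      rw [h2]
      nlinarith
    have h5 : (2 : ℝ) < Real.log ((2 / (1 + 1 / 50)) ^ 3) := by
      rw [Real.lt_log_iff_exp_lt (by positivity)]
      exact h1
    rw [Real.log_pow] at h5
    push_cast at h5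
    linarith
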